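import Pool.Agent.L0h14.SD.Main

/-!
# Self-duality of finite-dimensional direct summands of `h^n(X)`

Let `X` be a smooth projective variety with a Chow-Künneth decomposition, `H = h^n(X)` and `H' = H^∨(-n)`. For a direct
summand `M = (H, p)` the motive `M^∨(-n)` is `(H', p^∨)`, and the question is whether there is an isomorphism of Chow
motives `M^∨(-n) ≅ M`.

Suppose that `H` has a polarization modulo numerical equivalence (`Polarization`): a correspondence `lam : H ⟶ H'`, invertible
modulo numerical equivalence, symmetric or alternating, for which the involution of the endomorphism algebra of `H`
modulo numerical equivalence is positive. Over a field of characteristic zero it exists if `X` satisfies the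
standard conjecture of Lefschetz type (the standard conjecture of Hodge type is known there); no isomorphism of the
Chow motives `H` and `H'` is assumed.

Theorem. If the numerically trivial endomorphisms of `M` are nilpotent, for example if `M` is finite-dimensional in the
sense of Kimura, then `M^∨ ≅ M(n)`; more precisely, for any lift `mu : H' ⟶ H` of the inverse of the polarization to Chow
motives its restriction `M^∨(-n) ⟶ M` is an isomorphism. The motive of `X` itself can be infinite-dimensional, as far
as is known.

The proof: let `p^*` be the adjoint of `p` for the involution. If `x` is in the right ideal of `p` and `p^* x` is numerically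
trivial then so is `x^* x = x^* p^* x`, and then `x`. So the multiplications with `p^*` and `p` are injective maps between the
right ideals of `p` and of `p^*` modulo numerical equivalence, and these are finite-dimensional. Hence `p` and `p^*` are
equivalent idempotents, and `M` and `M^∨(-n)` are isomorphic modulo numerical equivalence. The isomorphism lifts,
since only the nilpotence of the numerically trivial endomorphisms of `M` is needed for this.
-/

set_option autoImplicit false

universe u v

open CategoryTheory

namespace Pool.Agent.Results.MP_191b91_ag.FiniteDimensionalSummands

open Pool.Agent.L0h14.SD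

/-- Let `H` be a motive with a polarization modulo numerical equivalence, of weight `n`, and `H' = H^∨(-n)`. Let `p` be an
idempotent endomorphism of `H` such that the numerically trivial endomorphisms of `M = (H, p)` are nilpotent, and
`M^∨(-n) = (H', dual p)`. Then the morphism `dual p ≫ mu ≫ p` from `M^∨(-n)` to `M` is an isomorphism of Chow motives, with
an inverse `a : M ⟶ M^∨(-n)`. -/
theorem result {𝒱 : Type u} [Category.{v} 𝒱] [Preadditive 𝒱] [Linear ℚ 𝒱] {T : Numerical 𝒱} {H H' : 𝒱}
    (P : Polarization T H H') {p : H ⟶ H} (hp : p ≫ p = p) (hn : Nilpotent T p) :
    ∃ a : H ⟶ H', p ≫ a = a ∧ a ≫ P.dual p = a ∧ a ≫ (P.dual p ≫ P.mu ≫ p) = p ∧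
      (P.dual p ≫ P.mu ≫ p) ≫ a = P.dual p :=
  self_dual P hp hn

end Pool.Agent.Results.MP_191b91_ag.FiniteDimensionalSummands
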